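import Pool.Agent.H7.V.H792R2.SS.Defs
import Pool.Agent.H7.V.Helper240.ZFM.B1

/-! Koebe: second coefficient (helper509). -/

set_option autoImplicit false
open Set Filter Topology Metric MeasureTheory

namespace Pool.Agent.H792R2.SS

theorem t_KB : S_KB := by
  intro φ z R hR hd hi
  have hz : z ∈ ball z R := mem_ball_self hR
  have hne : deriv φ z ≠ 0 := Pool.Agent.Helper405.Conv.deriv_ne_zero_of_injOn isOpen_ball hd hi hz
  refine ⟨hne, ?_⟩
  set g : ℂ → ℂ := fun w => φ (z + (R : ℂ) * w) with hg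
  have hmem : ∀ w ∈ ball (0 : ℂ) 1, z + (R : ℂ) * w ∈ ball z R := by
    intro w hw
    rw [mem_ball_zero_iff] at hw
    rw [mem_ball, dist_eq_norm, add_sub_cancel_left, norm_mul, Complex.norm_real,
      Real.norm_of_nonneg hR.le]
    calc R * ‖w‖ < R * 1 := mul_lt_mul_of_pos_left hw hR
      _ = R := mul_one R
  have hRc : (R : ℂ) ≠ 0 := by exact_mod_cast hR.ne'
  have hgd : DifferentiableOn ℂ g (ball 0 1) := by
    refine hd.comp (Differentiable.differentiableOn (by fun_prop)) hmem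
  have hgi : InjOn g (ball 0 1) := by
    intro w hw w' hw' h
    have h1 := hi (hmem w hw) (hmem w' hw') h
    have h2 : (R : ℂ) * w = (R : ℂ) * w' := add_left_cancel h1
    exact mul_left_cancel₀ hRc h2
  have hder : ∀ w ∈ ball (0 : ℂ) 1, deriv g w = (R : ℂ) * deriv φ (z + (R : ℂ) * w) := by
    intro w hw
    have h1 : HasDerivAt φ (deriv φ (z + (R : ℂ) * w)) (z + (R : ℂ) * w) :=
      ((hd _ (hmem w hw)).differentiableAt (isOpen_ball.mem_nhds (hmem w hw))).hasDerivAt
    have h2 : HasDerivAt (fun w : ℂ => z + (R : ℂ) * w) (R : ℂ) w := by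
      simpa using ((hasDerivAt_id w).const_mul (R : ℂ)).const_add z
    have h3 := h1.comp w h2
    rw [mul_comm]
    exact h3.deriv
  have h0 : (0 : ℂ) ∈ ball (0 : ℂ) 1 := mem_ball_self one_pos
  have hd1 : deriv g 0 = (R : ℂ) * deriv φ z := by
    rw [hder 0 h0, mul_zero, add_zero]
  have hd2 : deriv (deriv g) 0 = (R : ℂ) * ((R : ℂ) * deriv (deriv φ) z) := by
    have hev : deriv g =ᶠ[𝓝 0] fun w => (R : ℂ) * deriv φ (z + (R : ℂ) * w) := by
      filter_upwards [isOpen_ball.mem_nhds h0] with w hw using hder w hw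
    rw [hev.deriv_eq]
    have hφ' : DifferentiableOn ℂ (deriv φ) (ball z R) := hd.deriv isOpen_ball
    have h1 : HasDerivAt (deriv φ) (deriv (deriv φ) z) (z + (R : ℂ) * 0) := by
      rw [mul_zero, add_zero]
      exact ((hφ' z hz).differentiableAt (isOpen_ball.mem_nhds hz)).hasDerivAt
    have h2 : HasDerivAt (fun w : ℂ => z + (R : ℂ) * w) (R : ℂ) 0 := by
      simpa using ((hasDerivAt_id (0 : ℂ)).const_mul (R : ℂ)).const_add z
    have h3 := (h1.comp (0 : ℂ) h2).const_mul (R : ℂ)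
    rw [mul_comm (R : ℂ) (deriv (deriv φ) z)]
    exact h3.deriv
  have hb := ZFM.J_b1.bieb hgd hgi
  rw [hd1, hd2, norm_mul, norm_mul, norm_mul, Complex.norm_real, Real.norm_of_nonneg hR.le] at hb
  have h5 : R * (R * ‖deriv (deriv φ) z‖) ≤ R * (4 * ‖deriv φ z‖) := by linarith
  exact le_of_mul_le_mul_left h5 hR

end Pool.Agent.H792R2.SS
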